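import Pool.Agent.Helper45.RT.Stmts3
import Pool.Agent.Helper14.Poly.Eleven
import Pool.Agent.Helper1.RTwo.GO2
import Pool.Agent.Helper18.RTwo.ROW
import Pool.Agent.Helper38.RTwo.FILT
import Pool.Agent.Helper38.RTwo.FILTL
import Pool.Agent.Helper38.RTwo.ROTD
import Pool.Agent.Helper38.RTwo.SYMK
import Pool.Agent.Helper50.RTwo.LEVEL
import Pool.Agent.Helper50.RTwo.LEVELAV
import Pool.Agent.Helper50.RTwo.SEL
import Pool.Agent.Helper50.RTwo.TEN
import Pool.Agent.Helper54.RTwo.ENT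
import Pool.Agent.Helper54.RTwo.FARK
import Pool.Agent.Helper54.RTwo.IV0
import Pool.Agent.Helper54.RTwo.IV1
import Pool.Agent.Helper54.RTwo.IV2
import Pool.Agent.Helper54.RTwo.IV3
import Pool.Agent.Helper14.RTA.IV4
import Pool.Agent.Helper14.RTA.IV5
import Pool.Agent.Helper54.RTwo.IVP
import Pool.Agent.Helper60.RTwo.GET
import Pool.Agent.Helper60.RTwo.GO1
import Pool.Agent.Helper60.RTwo.INV
import Pool.Agent.Helper60.RTwo.LISTS
import Pool.Agent.Helper60.RTwo.PACK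
import Pool.Agent.Helper60.RTwo.SCAN
import Pool.Agent.Helper60.RTwo.TABL
import Pool.Agent.Helper61.RTwo.BITS
import Pool.Agent.Helper62.RTwo.BASE
import Pool.Agent.Helper62.RTwo.ORD
import Pool.Agent.Helper64.RTwo.REV
import Pool.Agent.Helper64.RTwo.ROT
import Pool.Agent.Helper71.RTwo.DEG
import Pool.Agent.Helper72.RT.Cnt
import Pool.Agent.Helper72.RT.Geo
import Pool.Agent.Helper72.RT.Pat
import Pool.Agent.Helper72.RT.Sinl
import Pool.Agent.Helper98.RTwo.Dih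

/-!
RTwo (MP_47dd75_co): all rows discharged, and the chain of levels from the data facts.
-/

set_option autoImplicit false

namespace RTwo

open Finset

namespace Glue

theorem rot : ST_ROT := st_ROT st_BITS
theorem rev : ST_REV := st_REV st_BITS
theorem symk' : ST_SYMK := st_SYMK st_BITS
theorem deg : ST_DEG := st_DEG st_BITS
theorem dih' : ST_DIH := st_DIH rot rev
theorem go2 : ST_GO2 := st_GO2 st_BITS st_RLR symk' dih' st_INV st_GO1
theorem base : ST_BASE :=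
  st_BASE st_GO1 go2 rot deg st_ROTD st_BITS st_DEL st_DCOL
theorem row' : ST_ROW := st_ROW st_ANG st_ISO st_APEX st_HINGE st_SINL st_BASE2 st_PK
theorem pkc : ST_PKC := st_PKC st_PACK
theorem fark' : ST_FARK := st_FARK row' st_PK pkc
theorem libe : ST_LIBE := st_LIBE fark'
theorem ent : ST_ENT := st_ENT st_RLR st_RLD
theorem tabl : ST_TABL := st_TABL st_TAB ent st_GET
theorem level : ST_LEVEL := st_LEVEL st_TAU st_DSG st_DCOL st_RLD st_DEL
theorem mind : ST_MIN := st_MIN st_DCOL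
theorem levelav : ST_LEVELAV := st_LEVELAV level mind st_DEL st_DCOL st_RLD
theorem filt' : ST_FILT := st_FILT st_RLR st_BITS
theorem filtl : ST_FILTL := st_FILTL st_RLD st_DCOL
theorem cov' : ST_COV := st_COV st_GET
theorem scan' : ST_SCAN := st_SCAN deg st_DCOL st_GET
theorem ten : ST_TEN := st_TEN st_DSG st_DCOL st_DEL
theorem sel' : ST_SEL := st_SEL st_ORD

/-- the library is forbidden -/
def LibOK (C : IC) (Lib : List ℕ) : Prop := ∀ a, get Lib a ≠ 0 → ∃ s, libE C (get Lib a) s = true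

/-- the table is covered by the library -/
def TabOK (n : ℕ) (Lib T : List ℕ) : Prop := ∀ c ∈ T, ∃ s, tabOK n c Lib 1024 0 s = true

/-- the bases are checked -/
def ChkOK (k t : ℕ) (T P L : List ℕ) : Prop :=
  ∀ idx, get P idx ≠ 0 → ∃ s, chkBase k t T L (get P idx) s = true

/-- no pattern of the list has both colours at least `x / 2` -/
def ScanOK (n x : ℕ) (L : List ℕ) : Prop :=
  ∃ N, scan n x L N 0 = true ∧ cov L N = true

theorem badE {C : IC} (hC : SmallC C) {Lib : List ℕ} (h : LibOK C Lib) :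
    ∀ a, get Lib a ≠ 0 → BadE (IOK C) (get Lib a) := fun a ha => by
  obtain ⟨s, hs⟩ := h a ha
  exact libe C _ s hC hs

theorem badT {C : IC} (hC : SmallC C) {n : ℕ} (h2 : 2 ≤ n) (h10 : n ≤ 10) {Lib T : List ℕ}
    (h : LibOK C Lib) (hT : TabOK n Lib T) : ∀ m, get T m ≠ 0 → Bad (IOK C) n (get T m) :=
  tabl (IOK C) n Lib T h2 h10 (badE hC h) hT

theorem step {C : IC} (hC : SmallC C) {k t : ℕ} (h2 : 2 ≤ k) (h9 : k ≤ 9) {Lib T P L : List ℕ}
    (h : LibOK C Lib) (hT : TabOK (k + 1) Lib T) (hP : ChkOK k t T P L) :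
    ∀ idx, get P idx ≠ 0 → StepOK (IOK C) k t L (get P idx) := fun idx hidx => by
  obtain ⟨s, hs⟩ := hP idx hidx
  exact base (IOK C) k t T L _ s h2 h9 (badT hC (by omega) (by omega) h hT) hs

/-- the list `L` contains all patterns with at least `t` chords -/
def All (I : ℝ → ℝ → Prop) (k t : ℕ) (L : List ℕ) : Prop :=
  ∀ c, SymC k c → Rl I k c → 2 * t ≤ tot k c → Cap k c → InL k L c

theorem all2 (I : ℝ → ℝ → Prop) : All I 2 1 [4 + 2 ^ 20 + (8 + 2 ^ 21) * 2 ^ 200] :=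
  fun c hc _ ht _ => st_TWO c hc ht

theorem next {C : IC} (hC : SmallC C) {k t t' : ℕ} (h2 : 2 ≤ k) (h9 : k ≤ 9) (ht' : 0 < t')
    {Lib T P L : List ℕ} (h : LibOK C Lib) (hT : TabOK (k + 1) Lib T) (hP : ChkOK k t T P L)
    (hE : ∀ E, 2 * t ≤ E → 2 * t' ≤ E - 2 * (E / (k + 1))) (hA : All (IOK C) k t' P) :
    All (IOK C) (k + 1) t L :=
  levelav (IOK C) k t t' P L h2 h9 ht' (step hC h2 h9 h hT hP) hE hA

/-- the plain data -/
structure PData (Lib T3 T4 T5 T6 T7 P3 P4 P5 P6 P7 : List ℕ) : Prop where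
  lib : LibOK KP Lib
  t3 : TabOK 3 Lib T3
  t4 : TabOK 4 Lib T4
  t5 : TabOK 5 Lib T5
  t6 : TabOK 6 Lib T6
  t7 : TabOK 7 Lib T7
  c2 : ChkOK 2 2 T3 [4 + 2 ^ 20 + (8 + 2 ^ 21) * 2 ^ 200] P3
  c3 : ChkOK 3 4 T4 P3 P4
  c4 : ChkOK 4 6 T5 P4 P5
  c5 : ChkOK 5 9 T6 P5 P6
  c6 : ChkOK 6 12 T7 P6 P7
  s6 : ScanOK 6 14 P6

theorem smallKP : SmallC KP := by
  unfold SmallC KP
  norm_num

theorem PData.all6 {Lib T3 T4 T5 T6 T7 P3 P4 P5 P6 P7 : List ℕ}
    (h : PData Lib T3 T4 T5 T6 T7 P3 P4 P5 P6 P7) : All (IOK KP) 6 9 P6 := by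
  have a3 : All (IOK KP) 3 2 P3 := next (t' := 1) smallKP (by norm_num) (by norm_num)
    (by norm_num) h.lib h.t3 h.c2 (fun E hE => by omega) (all2 _)
  have a4 : All (IOK KP) 4 4 P4 := next (t' := 2) smallKP (by norm_num) (by norm_num)
    (by norm_num) h.lib h.t4 h.c3 (fun E hE => by omega) a3
  have a5 : All (IOK KP) 5 6 P5 := next (t' := 4) smallKP (by norm_num) (by norm_num)
    (by norm_num) h.lib h.t5 h.c4 (fun E hE => by omega) a4
  exact next (t' := 6) smallKP (by norm_num) (by norm_num)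
    (by norm_num) h.lib h.t6 h.c5 (fun E hE => by omega) a5

theorem PData.all7 {Lib T3 T4 T5 T6 T7 P3 P4 P5 P6 P7 : List ℕ}
    (h : PData Lib T3 T4 T5 T6 T7 P3 P4 P5 P6 P7) : All (IOK KP) 7 12 P7 :=
  next (t' := 9) smallKP (by norm_num) (by norm_num)
    (by norm_num) h.lib h.t7 h.c6 (fun E hE => by omega) h.all6

/-- the fact proved by the filter -/
def FiltFact (C : IC) (P7 L7 : List ℕ) : Prop :=
  ∃ N, (∀ idx, N ≤ idx → get P7 idx = 0) ∧
    ∀ j, j < N → (∀ c, SymC 7 c → get P7 j = code 7 c → ¬ Rl (IOK C) 7 c) ∨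
      ∃ idx, get L7 idx = get P7 j

/-- the data of an interval -/
structure IData (C : IC) (P7 Lib T8 T9 T10 L7 L8 L9 : List ℕ) : Prop where
  small : SmallC C
  lib : LibOK C Lib
  fil : FiltFact C P7 L7
  t8 : TabOK 8 Lib T8
  t9 : TabOK 9 Lib T9
  t10 : TabOK 10 Lib T10
  c7 : ChkOK 7 15 T8 L7 L8
  c8 : ChkOK 8 18 T9 L8 L9
  c9 : ChkOK 9 22 T10 L9 []
  s7 : ScanOK 7 16 L7
  s8 : ScanOK 8 18 L8
  s9 : ScanOK 9 20 L9

theorem rl_mono {I J : ℝ → ℝ → Prop} {n : ℕ} {c : Col} (h : Rl I n c)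
    (hIJ : ∀ a b, 0 < a → a < b → I a b → J a b) : Rl J n c := by
  obtain ⟨p, a, b, h1, h2, h3, h4, h5⟩ := h
  exact ⟨p, a, b, h1, h2, h3, hIJ a b h2 h3 h4, h5⟩

theorem scan_no {n x : ℕ} {L : List ℕ} (hn : 0 < n) (hn' : n ≤ 10) (h : ScanOK n x L) {c : Col}
    (hc : SymC n c) (ht : 0 < tot n c) (hin : InL n L c) : ¬ (x ≤ totA n c ∧ x ≤ totB n c) := by
  obtain ⟨N, h1, h2⟩ := h
  exact scan' n x N L hn hn' h1 (cov' L N h2) c hc ht hin

section chain

variable {C : IC} {Lib0 T3 T4 T5 T6 T7 P3 P4 P5 P6 P7 Lib T8 T9 T10 L7 L8 L9 : List ℕ}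

theorem i7 (h0 : PData Lib0 T3 T4 T5 T6 T7 P3 P4 P5 P6 P7)
    (h : IData C P7 Lib T8 T9 T10 L7 L8 L9) : All (IOK C) 7 12 L7 := by
  intro c hc hR ht hcap
  obtain ⟨N, hN, hf⟩ := h.fil
  refine filtl (IOK C) P7 L7 N hN hf c hc (by omega) hR (h0.all7 c hc ?_ ht hcap)
  exact rl_mono hR fun a b ha hab _ => st_IVP a b ha hab

theorem i8 (h0 : PData Lib0 T3 T4 T5 T6 T7 P3 P4 P5 P6 P7)
    (h : IData C P7 Lib T8 T9 T10 L7 L8 L9) : All (IOK C) 8 15 L8 :=
  next (t' := 12) h.small (by norm_num) (by norm_num)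
    (by norm_num) h.lib h.t8 h.c7 (fun E hE => by omega) (i7 h0 h)

theorem i9 (h0 : PData Lib0 T3 T4 T5 T6 T7 P3 P4 P5 P6 P7)
    (h : IData C P7 Lib T8 T9 T10 L7 L8 L9) (c : Col) (hc : SymC 9 c) (hR : Rl (IOK C) 9 c)
    (ht : 36 ≤ tot 9 c) (hcap : Cap 9 c) (v : ℕ) (hv : v < 9)
    (hd : 30 + 2 * dgr 9 c v ≤ tot 9 c) : InL 9 L9 c := by
  obtain ⟨r, hr, hmin, -⟩ := mind 8 c hc
  obtain ⟨d1, d2, d3, d4⟩ := st_DCOL 9 r 0 c (by norm_num) hc
  have e1 : SymC 8 (dcol 9 r 0 c) := (st_DEL 8 _ d1).1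
  have e2 : tot 9 (dcol 9 r 0 c) = tot 8 (dcol 9 r 0 c) + 2 * dgr 9 (dcol 9 r 0 c) 8 :=
    (st_DEL 8 _ d1).2.1
  have e3 : totA 8 (dcol 9 r 0 c) ≤ totA 9 (dcol 9 r 0 c) := (st_DEL 8 _ d1).2.2.1
  have e4 : totB 8 (dcol 9 r 0 c) ≤ totB 9 (dcol 9 r 0 c) := (st_DEL 8 _ d1).2.2.2.1
  have hcap' : Cap 8 (dcol 9 r 0 c) := ⟨by have := hcap.1; omega, by have := hcap.2; omega⟩
  have htot : tot 9 (dcol 9 r 0 c) = tot 9 c := by
    unfold tot
    rw [d2, d3]
  have hmin' : dgr 9 (dcol 9 r 0 c) 8 ≤ dgr 9 c v := by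
    -- `v = dsg 9 r 0 w` for `w = (v + (9 - r)) % 9`
    have hw : (v + (9 - r)) % 9 < 9 := Nat.mod_lt _ (by norm_num)
    have h1 := hmin ((v + (9 - r)) % 9) (by omega)
    rw [d4 _ hw] at h1
    have h2 : dsg 9 r 0 ((v + (9 - r)) % 9) = v := by
      unfold dsg
      rw [if_pos rfl]
      omega
    rwa [h2] at h1
  have h8 : 30 ≤ tot 8 (dcol 9 r 0 c) := by
    omega
  refine level (IOK C) 8 18 L8 L9 c (by norm_num) (by norm_num)
    (step h.small (by norm_num) (by norm_num) h.lib h.t9 h.c8) hc hR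
    (show 2 * 18 ≤ tot 9 c by omega) hcap r hr hmin
    (show 0 < tot 8 (dcol 9 r 0 c) by omega) ?_
  refine i8 h0 h _ e1 ?_ (by omega) hcap'
  exact st_RLR (IOK C) (IOK C) 8 9 _ _ id (st_RLD (IOK C) 9 r 0 c (by norm_num) hR)
    (fun _ _ h => h) (fun i j hij _ => hij) (fun i hi => by show i < 9; omega)
    (fun i j e _ _ _ hh => hh)

theorem i10 (h0 : PData Lib0 T3 T4 T5 T6 T7 P3 P4 P5 P6 P7)
    (h : IData C P7 Lib T8 T9 T10 L7 L8 L9) (c : Col) (hc : SymC 10 c) (hR : Rl (IOK C) 10 c)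
    (ht : tot 10 c = 44) (hcap : Cap 10 c) : False := by
  obtain ⟨r, hr, hmin, h36, v, hv, hdv⟩ := ten c hc ht
  obtain ⟨d1, d2, d3, d4⟩ := st_DCOL 10 r 0 c (by norm_num) hc
  have e1 : SymC 9 (dcol 10 r 0 c) := (st_DEL 9 _ d1).1
  have e3 : totA 9 (dcol 10 r 0 c) ≤ totA 10 (dcol 10 r 0 c) := (st_DEL 9 _ d1).2.2.1
  have e4 : totB 9 (dcol 10 r 0 c) ≤ totB 10 (dcol 10 r 0 c) := (st_DEL 9 _ d1).2.2.2.1
  have hcap' : Cap 9 (dcol 10 r 0 c) := ⟨by have := hcap.1; omega, by have := hcap.2; omega⟩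
  have hin : InL 10 [] c := by
    refine level (IOK C) 9 22 L9 [] c (by norm_num) (by norm_num)
      (step h.small (by norm_num) (by norm_num) h.lib h.t10 h.c9) hc hR
      (show 2 * 22 ≤ tot 10 c by omega) hcap r hr
      (fun v hv => hmin v (by omega)) (show 0 < tot 9 (dcol 10 r 0 c) by omega) ?_
    refine i9 h0 h _ e1 ?_ h36 hcap' v hv hdv
    exact st_RLR (IOK C) (IOK C) 9 10 _ _ id (st_RLD (IOK C) 10 r 0 c (by norm_num) hR)
      (fun _ _ h => h) (fun i j hij _ => hij) (fun i hi => by show i < 10; omega)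
      (fun i j e _ _ _ hh => hh)
  have hs : ScanOK 10 0 [] := ⟨0, rfl, rfl⟩
  exact scan_no (by norm_num) (by norm_num) hs hc (by omega) hin ⟨Nat.zero_le _, Nat.zero_le _⟩

/-- no pattern with `n + 1` chords of both colours, `7 ≤ n ≤ 10` -/
theorem no_big (h0 : PData Lib0 T3 T4 T5 T6 T7 P3 P4 P5 P6 P7)
    (h : IData C P7 Lib T8 T9 T10 L7 L8 L9) (n : ℕ) (h7 : 7 ≤ n) (h10 : n ≤ 10) (c : Col)
    (hc : SymC n c) (hR : Rl (IOK C) n c) (hA : totA n c = 2 * (n + 1))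
    (hB : totB n c = 2 * (n + 1)) : False := by
  have ht : tot n c = 4 * (n + 1) := by
    unfold tot
    omega
  have hcap : Cap n c := ⟨by omega, by omega⟩
  interval_cases n
  · exact scan_no (by norm_num) (by norm_num) h.s7 hc (by omega) (i7 h0 h c hc hR (by omega) hcap)
      ⟨by omega, by omega⟩
  · exact scan_no (by norm_num) (by norm_num) h.s8 hc (by omega) (i8 h0 h c hc hR (by omega) hcap)
      ⟨by omega, by omega⟩
  · obtain ⟨r, hr, hmin, hdeg⟩ := mind 8 c hc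
    obtain ⟨d1, d2, d3, d4⟩ := st_DCOL 9 r 0 c (by norm_num) hc
    have hv : dsg 9 r 0 8 < 9 := (st_DSG 9 (by norm_num)).1 r 0 8 (by norm_num)
    have h8 : dgr 9 (dcol 9 r 0 c) 8 = dgr 9 c (dsg 9 r 0 8) := d4 8 (by norm_num)
    have hdeg' : 9 * dgr 9 (dcol 9 r 0 c) 8 ≤ tot 9 c := hdeg
    exact scan_no (by norm_num) (by norm_num) h.s9 hc (by omega)
      (i9 h0 h c hc hR (by omega) hcap _ hv (by omega)) ⟨by omega, by omega⟩
  · exact i10 h0 h c hc hR (by omega) hcap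

end chain

theorem dgr_le {n : ℕ} {c : Col} (hc : SymC n c) {v : ℕ} (hv : v < n) : dgr n c v ≤ n - 1 := by
  classical
  unfold dgr nA nB
  rw [← Finset.card_union_of_disjoint (Finset.disjoint_filter.2 fun w _ h1 h2 => by omega)]
  have h : (filter (fun w => c v w = 1) (range n) ∪ filter (fun w => c v w = 2) (range n)) ⊆
      (range n).erase v := by
    intro w hw
    rw [Finset.mem_union, Finset.mem_filter, Finset.mem_filter] at hw
    rw [Finset.mem_erase]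
    have h0 := (hc v v hv hv).2.1
    rcases hw with ⟨h1, h2⟩ | ⟨h1, h2⟩
    · refine ⟨?_, h1⟩
      rintro rfl
      omega
    · refine ⟨?_, h1⟩
      rintro rfl
      omega
  have h2 := Finset.card_le_card h
  rwa [Finset.card_erase_of_mem (Finset.mem_range.2 hv), Finset.card_range] at h2

theorem tot_le {n : ℕ} {c : Col} (hc : SymC n c) : tot n c ≤ n * (n - 1) := by
  have h1 : tot n c = ∑ v ∈ range n, dgr n c v := by
    unfold tot totA totB dgr
    rw [Finset.sum_add_distrib]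
  rw [h1]
  calc ∑ v ∈ range n, dgr n c v ≤ ∑ v ∈ range n, (n - 1) :=
        Finset.sum_le_sum fun v hv => dgr_le hc (Finset.mem_range.1 hv)
    _ = n * (n - 1) := by rw [Finset.sum_const, Finset.card_range, smul_eq_mul]

/-- all data facts -/
def DataOK : Prop :=
  ∃ Lib0 T3 T4 T5 T6 T7 P3 P4 P5 P6 P7 : List ℕ,
    PData Lib0 T3 T4 T5 T6 T7 P3 P4 P5 P6 P7 ∧
    (∃ Lib T8 T9 T10 L7 L8 L9, IData K0 P7 Lib T8 T9 T10 L7 L8 L9) ∧
    (∃ Lib T8 T9 T10 L7 L8 L9, IData K1 P7 Lib T8 T9 T10 L7 L8 L9) ∧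
    (∃ Lib T8 T9 T10 L7 L8 L9, IData K2 P7 Lib T8 T9 T10 L7 L8 L9) ∧
    (∃ Lib T8 T9 T10 L7 L8 L9, IData K3 P7 Lib T8 T9 T10 L7 L8 L9) ∧
    (∃ Lib T8 T9 T10 L7 L8 L9, IData K4 P7 Lib T8 T9 T10 L7 L8 L9) ∧
    (∃ Lib T8 T9 T10 L7 L8 L9, IData K5 P7 Lib T8 T9 T10 L7 L8 L9)

theorem no_col (h : DataOK) (n : ℕ) (hn : n ≤ 10) (c : Col) (p : ℕ → ℂ) (a b : ℝ)
    (hp : CPos n p) (ha : 0 < a) (hab : a < b) (hc : SymC n c) (hA : totA n c = 2 * (n + 1))
    (hB : totB n c = 2 * (n + 1))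
    (hcol : ∀ i j, i < n → j < n → Okd (c i j) a b (dist (p i) (p j))) : False := by
  obtain ⟨Lib0, T3, T4, T5, T6, T7, P3, P4, P5, P6, P7, h0, d0, d1, d2, d3, d4, d5⟩ := h
  have ht : tot n c = 4 * (n + 1) := by
    unfold tot
    omega
  have hR : ∀ C : IC, IOK C a b → Rl (IOK C) n c := fun C hC => ⟨p, a, b, hp, ha, hab, hC, hcol⟩
  rcases Nat.lt_or_ge n 6 with h6 | h6
  · have := tot_le hc
    rw [ht] at this
    interval_cases n <;> omega
  · rcases Nat.lt_or_ge n 7 with h7 | h7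
    · have hn6 : n = 6 := by omega
      subst hn6
      exact scan_no (by norm_num) (by norm_num) h0.s6 hc (by omega)
        (h0.all6 c hc (hR KP (st_IVP a b ha hab)) (by omega) ⟨by omega, by omega⟩)
        ⟨by omega, by omega⟩
    · have fin : ∀ C : IC, IOK C a b →
          (∃ Lib T8 T9 T10 L7 L8 L9, IData C P7 Lib T8 T9 T10 L7 L8 L9) → False := by
        rintro C hC ⟨Lib, T8, T9, T10, L7, L8, L9, hI⟩
        exact no_big h0 hI n h7 hn c hc (hR C hC) hA hB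
      rcases le_or_gt (2 * a) b with e0 | e0
      · exact fin K0 (st_IV0 a b ha hab e0) d0
      rcases le_or_gt (35 * a) (18 * b) with e1 | e1
      · exact fin K1 (st_IV1 a b ha hab e0 e1) d1
      rcases le_or_gt (21 * a) (11 * b) with e2 | e2
      · exact fin K2 (st_IV2 a b ha hab e1 e2) d2
      rcases le_or_gt (20 * a) (13 * b) with e3 | e3
      · exact fin K3 (st_IV3 a b ha hab e2 e3) d3
      rcases le_or_gt (25 * a) (18 * b) with e4 | e4
      · exact fin K4 (st_IV4 a b ha hab e3 e4) d4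
      · exact fin K5 (st_IV5 a b ha hab e4) d5

open Pool.Agent.Helper14.Poly in
theorem r2_le (h : DataOK) (n : ℕ) (hn : n ≤ 10) : r₂ n ≤ n := by
  unfold r₂
  refine csSup_le' ?_
  rintro m ⟨C, hC, d₁, d₂, hne, h1, h2⟩
  by_contra hm
  have hm' : n + 1 ≤ m := by omega
  have key : ∀ e₁ e₂ : ℝ, e₁ < e₂ → n + 1 ≤ mult C e₁ → n + 1 ≤ mult C e₂ → False := by
    intro e₁ e₂ he g1 g2
    obtain ⟨p, c, hp, ha, hc, hA, hB, hcol⟩ :=
      sel' n (n + 1) C e₁ e₂ (Nat.succ_pos n) hC he g1 g2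
    exact no_col h n hn c p e₁ e₂ hp ha he hc hA hB hcol
  rcases lt_or_gt_of_ne hne with hlt | hgt
  · exact key d₁ d₂ hlt (hm'.trans h1) (hm'.trans h2)
  · exact key d₂ d₁ hgt (hm'.trans h2) (hm'.trans h1)

open Pool.Agent.Helper14.Poly in
/-- the least `n` with `r₂(n) > n` is `11` -/
theorem final (h : DataOK) : IsLeast {n : ℕ | n < r₂ n} 11 := by
  refine ⟨eleven, ?_⟩
  intro n hn
  by_contra hlt
  have h1 := r2_le h n (by omega)
  have h2 : n < r₂ n := hn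
  omega

end Glue

end RTwo
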